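import Pool.Agent.Q169.RC.CV

/-!
# `ℓ²`-homology above half the cocompact action dimension, for a class of right-angled Coxeter groups

`CV true n`, `CV false n` are the smallest classes of (natural numbers `n` and) finite graphs, thought of as the flag
complexes which they span, such that
* `CV false (2 k + 1)` contains the complexes with a proper colouring by `k + 1` colours whose mod `2` van Kampen
  obstruction for the sphere of dimension `2 k` vanishes (for example those which embed in it),
* `CV false (2 m + 1)` contains the homology spheres in `CV true (2 m + 2)` whose right-angled Coxeter group has
  Euler characteristic zero,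
* the classes contain the classes `AM n`, `AQ n` of the starting library, and `CV false n` contains the complexes of
  dimension less than `n / 2`,
* they are closed under full subcomplexes, joins (the numbers `n` add up), `n ↦ n + 1`, and `CV false` under
  `2 m + 1 ↦ 2 m`; under gluing of members of number `n + 2` along a common full subcomplex of number `n`, under adding
  vertices whose links have the number `n` (or `2 m + 1`) to a member of number `n + 2` (or `2 m + 2`), under deleting
  edges whose links have the number `n` from a member of number `n + 2`; `CV true` under stellar subdivisions of edges;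
  and `CV true (n + 1)` contains the members of `CV false (n + 1)` all of whose vertex links are in `CV true n`.

If the flag complex `L` of a graph is a full subcomplex of a flag triangulated (combinatorial) sphere of dimension
`n - 1` then its right-angled Coxeter group acts geometrically on a contractible `n`-manifold with boundary, and its
cocompact action dimension is at most `n`.
-/

set_option autoImplicit false

namespace Pool.Agent.Results.MP_ea75ba_gt.ClassWithObstruction

open Pool.Agent.W907.SG Pool.Agent.TH652.Above Pool.Agent.Q169.RC Pool.Agent.Y132.SI

/-- Let the finite graph `G` be in one of the classes `CV b n`. (1) For every full subcomplex `A` and every `i > n / 2`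
the Davis complex of the right-angled Coxeter group of `A` has no nonzero `ℓ²` harmonic `i`-chain. (2) For each `ε > 0`
there is a finite set `E` of nontrivial elements of `W G` such that for each subgroup `H` of finite index which contains
no conjugate of an element of `E` and each `i > n / 2` the `i`-th real Betti number of `H` is at most `ε [W G : H]`.
(3) If the flag complex of `G` is a real homology sphere of dimension `n - 1` then the Davis complex of `W G` has no
nonzero `ℓ²` harmonic `i`-chain for `i ≠ n / 2`. -/
theorem result (b : Bool) (n : ℕ) (V : Type) [Fintype V] [LinearOrder V] (G : SimpleGraph V) (h : CV b n G) :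
    (∀ (A : Set V) [Fintype A] (i : ℕ), n < 2 * i → L2Van (G.induce A) i) ∧
    (∀ ε : ℝ, 0 < ε → ∃ E : Finset (W G), (1 : W G) ∉ E ∧
      ∀ H : Subgroup (W G), H.FiniteIndex → (∀ g ∈ E, ∀ x : W G, x * g * x⁻¹ ∉ H) →
        ∀ i : ℕ, n < 2 * i → (Module.finrank ℝ (HInv G H i) : ℝ) ≤ ε * H.index) ∧
    (HSph n G → ∀ i : ℕ, 2 * i ≠ n → L2Van G i) := by
  have hQ := Q_of_CV h
  have hG : ∀ i : ℕ, n < 2 * i → L2Van G i := fun i hi => (lv_univ G i).1 (hQ.2 Set.univ i hi) _ _
  exact ⟨fun A _ i hi => hQ.2 A i hi _ _, fun ε hε => growth_of G (fun i => n < 2 * i) hG ε hε,
    fun hS i hi => singer_of_above hS hG i hi⟩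

end Pool.Agent.Results.MP_ea75ba_gt.ClassWithObstruction
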